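import Pool.Agent.V11188.EB.C

/-!
# Q1 of MP_e9cb08_gt: the inequality holds for every `n ≥ 3`
-/

set_option autoImplicit false

namespace Pool.Agent.Results.MP_e9cb08_gt.BoundaryInequality

open MeasureTheory Set
open scoped ENNReal

theorem result (n : ℕ) (hn : 3 ≤ n) (h : EuclideanSpace ℝ (Fin (n - 1)) → ℝ)
    (hh : ConvexOn ℝ univ h) (h0 : ∀ y, 0 ≤ h y)
    (C : Set (EuclideanSpace ℝ (Fin (n - 1)))) (hC : IsCompact C) (hc : Convex ℝ C) :
    ENNReal.ofReal (2 / ((n : ℝ) - 1)) *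
        ∫⁻ z in C, ENNReal.ofReal (h z * Real.sqrt (1 + ‖gradient h z‖ ^ 2)) ≤
      ∫⁻ y in frontier C, ENNReal.ofReal (‖y‖ ^ 2 + h y ^ 2)
        ∂(Measure.euclideanHausdorffMeasure (n - 2) :
          Measure (EuclideanSpace ℝ (Fin (n - 1)))) := by
  have key := Pool.Agent.V11188.EB.boundary (d := n - 1) (by omega) hh h0 hC hc
  have e1 : (n - 1 - 1 : ℕ) = n - 2 := by omega
  have e2 : ((n - 1 : ℕ) : ℝ) = (n : ℝ) - 1 := by
    rw [Nat.cast_sub (by omega)]; simp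
  rw [e1, e2] at key
  have e3 : ∀ z, ‖gradient h z‖ = ‖fderiv ℝ h z‖ := by
    intro z
    unfold gradient
    rw [LinearIsometryEquiv.norm_map]
  simp_rw [e3]
  exact key

end Pool.Agent.Results.MP_e9cb08_gt.BoundaryInequality
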